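import Mathlib
import Pool.Agent.MP_66e1b3_co.Loop

set_option autoImplicit false

namespace Pool.Agent.Results.MP_66e1b3_co.NotCAT0

open Pool.Agent.MP_66e1b3_co

/-- The configuration space of the robotic arm of length 15 in the tunnel of width 8, with links
facing up, down, right and left, is not CAT(0). -/
theorem result : ¬ IsCAT0 (Config 8 15) := not_cat0

end Pool.Agent.Results.MP_66e1b3_co.NotCAT0
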